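import Pool.Agent.H32.TN.Int
import Pool.Agent.H24.ZL.LowZ
import Pool.Agent.H20.RT.Vp

/-!
# [H41 RT WW] THEOREM R (MP_e49dc9_ag), step (3): effective classes around `p` in `Vp p`

`frm`: integral classes `g i` with `Vp p = span g`, `p = ∑ q i g i`, `q` linearly independent over `ℚ`.
`ww`: `p` nef, `l(p) > 0`, `T(p,p,A) > 0`, `T = 0` on `Vp p`: there are finitely many effective classes `W j` in `Vp p` such that every
`y ∈ Vp p` near `p` is a combination of the `W j` with coefficients `≥ 0`.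
-/

set_option autoImplicit false

namespace Pool.Agent.H41.RT

open Pool.Agent.H54.RV Pool.Agent.H83.TU Pool.Agent.H83.TK Pool.Agent.H20.TD Pool.Agent.H20.TP Pool.Agent.H39.TQ
  Pool.Agent.H36.TZ Pool.Agent.H36.TQ Pool.Agent.H89.ZN Pool.Agent.H57.KM Pool.Agent.H83.DC Pool.Agent.H20.RT
open Pool.Agent.H24.VP (RR chS Tri)
open Pool.Agent.H39.TZ (exists_E nfr_of T_pT T_pz T_p3 l_dl p_eq)

variable {k K : Type} [Field k] [Field K] [Algebra k K] {X : Mod k K} {r : ℕ}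
  {ν : Cart X →* Multiplicative (Fin r → ℤ)} {T : Cart X → Cart X → Cart X → ℝ} {l₀ : Cart X → ℝ} {c : ℝ} {TR : Tri3 r}
  {p : Fin r → ℝ}

/-- an integral point of `Vp p` is a combination of the columns -/
private theorem spn_int {m : ℕ} {q : Fin m → ℝ} {c' : Fin r → Fin m → ℤ} (hy : ∀ j, p j = ∑ i, (c' j i : ℝ) * q i)
    {d : Fin r → ℤ} (hd : rv d ∈ Vp p) : ∃ s : Fin m → ℝ, rv d = ∑ i, s i • rv (fun j => c' j i) := by
  classical
  by_cases hin : (fun j => (d j : ℚ)) ∈ Submodule.span ℚ (Set.range fun (i : Fin m) (j : Fin r) => (c' j i : ℚ))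
  · obtain ⟨s, hs⟩ := (Submodule.mem_span_range_iff_exists_fun ℚ).1 hin
    refine ⟨fun i => (s i : ℝ), ?_⟩
    funext j
    have h1 := congrFun hs j
    rw [Finset.sum_apply] at h1
    rw [Finset.sum_apply]
    have h2 : ((∑ i, (s i • fun (j : Fin r) => (c' j i : ℚ)) j : ℚ) : ℝ) = ((d j : ℚ) : ℝ) := by rw [h1]
    rw [Rat.cast_intCast] at h2
    change ((d j : ℤ) : ℝ) = _
    rw [← h2, Rat.cast_sum]
    refine Finset.sum_congr rfl fun i _ => ?_
    simp only [Pi.smul_apply, smul_eq_mul, Rat.cast_mul, Rat.cast_intCast]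
    rfl
  · exfalso
    obtain ⟨f, hf1, hf2⟩ := Submodule.exists_le_ker_of_notMem hin
    obtain ⟨D, z, hD, hz⟩ := Pool.Agent.H32.TN.clear_den fun j => f (Pi.single j 1)
    have hfv : ∀ v : Fin r → ℚ, (D : ℚ) * f v = ∑ j, (z j : ℚ) * v j := by
      intro v
      have h1 : f v = ∑ j, v j * f (Pi.single j 1) := by
        rw [LinearMap.pi_apply_eq_sum_univ f v]
        refine Finset.sum_congr rfl fun j _ => ?_
        rw [smul_eq_mul]
        congr 2
        funext i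
        by_cases hij : j = i
        · subst hij
          simp
        · rw [if_neg hij, Pi.single_eq_of_ne (fun h => hij h.symm)]
      rw [h1, Finset.mul_sum]
      refine Finset.sum_congr rfl fun j _ => ?_
      rw [hz]
      ring
    have hg : ∀ i, ∑ j, (z j : ℚ) * (c' j i : ℚ) = 0 := by
      intro i
      rw [← hfv (fun j => (c' j i : ℚ))]
      have h1 : (fun j : Fin r => (c' j i : ℚ)) ∈ LinearMap.ker f := hf2 (Submodule.subset_span ⟨i, rfl⟩)
      rw [LinearMap.mem_ker] at h1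
      rw [h1, mul_zero]
    have hgR : ∀ i, ∑ j, (z j : ℝ) * (c' j i : ℝ) = 0 := by
      intro i
      have h1 : ((∑ j, (z j : ℚ) * (c' j i : ℚ) : ℚ) : ℝ) = 0 := by rw [hg i, Rat.cast_zero]
      rw [Rat.cast_sum] at h1
      simpa using h1
    have hp0 : rv z ⬝ᵥ p = 0 := by
      rw [dotProduct]
      have h1 : ∀ j, rv z j * p j = ∑ i, q i * ((z j : ℝ) * (c' j i : ℝ)) := by
        intro j
        rw [hy j, Finset.mul_sum]
        refine Finset.sum_congr rfl fun i _ => ?_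
        change (z j : ℝ) * _ = _
        ring
      rw [Finset.sum_congr rfl fun j _ => h1 j, Finset.sum_comm]
      refine Finset.sum_eq_zero fun i _ => ?_
      rw [← Finset.mul_sum, hgR i, mul_zero]
    have h2 := mem_vp.1 hd z hp0
    have h3 : (D : ℚ) * f (fun j => (d j : ℚ)) = 0 := by
      rw [hfv]
      have h4 : ((∑ j, (z j : ℚ) * (d j : ℚ) : ℚ) : ℝ) = 0 := by
        rw [Rat.cast_sum, ← h2, dotProduct]
        refine Finset.sum_congr rfl fun j _ => ?_
        simp only [Rat.cast_mul, Rat.cast_intCast]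
        rfl
      exact_mod_cast h4
    rcases mul_eq_zero.1 h3 with h4 | h4
    · exact absurd (Nat.cast_eq_zero.1 h4) hD.ne'
    · exact hf1 h4

/-- the columns span `Vp p` -/
theorem frm {m : ℕ} {q : Fin m → ℝ} {c' : Fin r → Fin m → ℤ} (hlin : ∀ z : Fin m → ℤ, ∑ i, (z i : ℝ) * q i = 0 → z = 0)
    (hy : ∀ j, p j = ∑ i, (c' j i : ℝ) * q i) :
    (∀ i, rv (fun j => c' j i) ∈ Vp p) ∧ ∀ w ∈ Vp p, ∃ s : Fin m → ℝ, w = ∑ i, s i • rv (fun j => c' j i) := by
  classical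
  constructor
  · intro i
    rw [mem_vp]
    intro φ hφ
    have h1 : ∑ i, ((∑ j, φ j * c' j i : ℤ) : ℝ) * q i = 0 := by
      rw [← hφ, dotProduct]
      have h2 : ∀ j, rv φ j * p j = ∑ i, (φ j : ℝ) * (c' j i : ℝ) * q i := by
        intro j
        rw [hy j, Finset.mul_sum]
        refine Finset.sum_congr rfl fun i _ => ?_
        change (φ j : ℝ) * _ = _
        ring
      rw [Finset.sum_congr rfl fun j _ => h2 j, Finset.sum_comm]
      refine Finset.sum_congr rfl fun i _ => ?_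
      rw [Int.cast_sum, Finset.sum_mul]
      refine Finset.sum_congr rfl fun j _ => ?_
      rw [Int.cast_mul]
    have h2 := congrFun (hlin (fun i => ∑ j, φ j * c' j i) h1) i
    have h3 : ((∑ j, φ j * c' j i : ℤ) : ℝ) = 0 := by
      have h4 : (∑ j, φ j * c' j i : ℤ) = 0 := h2
      rw [h4, Int.cast_zero]
    rw [dotProduct, ← h3, Int.cast_sum]
    refine Finset.sum_congr rfl fun j _ => ?_
    rw [Int.cast_mul]
    rfl
  · intro w hw
    obtain ⟨a, d, h1, rfl⟩ := vp_sum p hw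
    choose s hs using fun j => spn_int hy (h1 j)
    refine ⟨fun i => ∑ j, a j * s j i, ?_⟩
    have h2 : ∀ j, a j • rv (d j) = ∑ i, (a j * s j i) • rv (fun j => c' j i) := by
      intro j
      rw [hs j, Finset.smul_sum]
      exact Finset.sum_congr rfl fun i _ => by rw [smul_smul]
    rw [Finset.sum_congr rfl fun j _ => h2 j, Finset.sum_comm]
    exact Finset.sum_congr rfl fun i _ => by rw [Finset.sum_smul]

/-- bounded coefficients -/
private theorem frm_bd {m : ℕ} {g : Fin m → Fin r → ℝ} {V : Submodule ℝ (Fin r → ℝ)}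
    (hg : ∀ w ∈ V, ∃ s : Fin m → ℝ, w = ∑ i, s i • g i) :
    ∃ M : ℝ, 0 < M ∧ ∀ w ∈ V, ∃ s : Fin m → ℝ, w = ∑ i, s i • g i ∧ ∀ i, |s i| ≤ M * ‖w‖ := by
  classical
  obtain ⟨L, hL⟩ : ∃ L : (Fin m → ℝ) →ₗ[ℝ] (Fin r → ℝ), ∀ s, L s = ∑ i, s i • g i :=
    ⟨∑ i, (LinearMap.proj i).smulRight (g i), fun s => by simp [LinearMap.sum_apply]⟩
  obtain ⟨R, hR⟩ : ∃ R : V →ₗ[ℝ] (Fin m → ℝ), ∀ w : V, L (R w) = w := by
    let b := Module.finBasis ℝ V
    choose s hs using fun i => hg (b i : Fin r → ℝ) (b i).2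
    refine ⟨b.constr ℝ s, fun w => ?_⟩
    have h1 : (L.comp (b.constr ℝ s)) = V.subtype := by
      refine b.ext fun i => ?_
      rw [LinearMap.comp_apply, Module.Basis.constr_basis, hL, ← hs i]
      rfl
    exact LinearMap.congr_fun h1 w
  refine ⟨‖LinearMap.toContinuousLinearMap R‖ + 1, by positivity, fun w hw => ⟨R ⟨w, hw⟩, ?_, fun i => ?_⟩⟩
  · rw [← hL, hR]
  · have h1 : |R ⟨w, hw⟩ i| ≤ ‖R ⟨w, hw⟩‖ := by
      rw [← Real.norm_eq_abs]
      exact norm_le_pi_norm _ i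
    have h2 : ‖R ⟨w, hw⟩‖ ≤ ‖LinearMap.toContinuousLinearMap R‖ * ‖(⟨w, hw⟩ : V)‖ :=
      (LinearMap.toContinuousLinearMap R).le_opNorm ⟨w, hw⟩
    have h3 : ‖(⟨w, hw⟩ : V)‖ = ‖w‖ := rfl
    rw [h3] at h2
    have h4 := norm_nonneg w
    nlinarith

/-- a point near `W` is a combination of the `W ± N g i` and `W` -/
private theorem comb {m : ℕ} (g : Fin m → Fin r → ℝ) (W : Fin r → ℝ) (t : Fin m → ℝ) {N : ℝ} (hN : 0 < N)
    : W + ∑ i, t i • g i =
      (1 - (∑ i, |t i|) / N) • W + ∑ i, ((max (t i) 0 / N) • (W + N • g i) + (max (- t i) 0 / N) • (W - N • g i)) := by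
  have h1 : ∀ i, (max (t i) 0 / N) • (W + N • g i) + (max (- t i) 0 / N) • (W - N • g i) =
      (|t i| / N) • W + t i • g i := by
    intro i
    funext j
    simp only [Pi.add_apply, Pi.smul_apply, smul_eq_mul, Pi.sub_apply]
    rcases le_total 0 (t i) with h2 | h2
    · rw [max_eq_left h2, max_eq_right (by linarith), abs_of_nonneg h2]
      field_simp
      ring
    · rw [max_eq_right h2, max_eq_left (by linarith), abs_of_nonpos h2]
      field_simp
      ring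
  rw [Finset.sum_congr rfl fun i _ => h1 i, Finset.sum_add_distrib, ← Finset.sum_smul, ← add_assoc, ← add_smul,
    ← Finset.sum_div]
  congr 1
  rw [sub_add_cancel, one_smul]

/-- **effective classes around `p`** -/
theorem ww [IsAlgClosed k] [CharZero k] [T0Space X.P] (h : Hyp X) (hν : NumR ν) (hr : RR T l₀ c)
    (hT : ∀ U V W, TR (Pool.Agent.H20.TP.cR ν U) (Pool.Agent.H20.TP.cR ν V) (Pool.Agent.H20.TP.cR ν W) = T U V W)
    {l : (Fin r → ℝ) →ₗ[ℝ] ℝ} (hl : ∀ D, l (Pool.Agent.H20.TP.cR ν D) = l₀ D) {A : Cart X} (hA : Ample A)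
    (hp : p ∈ closure (AmpR ν)) (hlp : 0 < l p) (hz : 0 < TR p p (Pool.Agent.H20.TP.cR ν A))
    (h3 : ∀ w ∈ Vp p, TR w w w = 0) :
    ∃ (n : ℕ) (W : Fin n → Cart X) (e : ℝ), 0 < e ∧ (∀ j, Pool.Agent.H20.TP.cR ν (W j) ∈ Vp p) ∧
      (∀ j, 0 < h0 (W j) 1) ∧
      ∀ y ∈ Vp p, ‖y - p‖ < e → ∃ a : Fin n → ℝ, (∀ j, 0 ≤ a j) ∧ y = ∑ j, a j • Pool.Agent.H20.TP.cR ν (W j) := by
  classical
  obtain ⟨E, hE⟩ := exists_E hν
  have hn := nfr_of h.var hν hA hE hp
  obtain ⟨m, q, c', hlin, hy⟩ := red_lin p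
  obtain ⟨G, hG⟩ : ∃ G : Fin m → Cart X, G = fun i => ∏ j, E j ^ c' j i := ⟨_, rfl⟩
  have hd : ∀ δ : Cart X → ℝ, (∀ U V, δ (U * V) = δ U + δ V) → dl δ G q = dl δ E p := by
    intro δ hδ
    rw [hG]
    exact red_dl E p q c' hy δ hδ
  have hnG : Nfr A G q := by
    rw [hG]
    exact nfr_red h hA E p q c' hy hn
  have hR := rn_of h hA hnG
  have hpz : 0 < pz T G q A := by
    rw [trf_pz hr.tri hd, ← T_pz hT hE]
    exact hz
  have hlq : ∑ i, q i * l₀ (G i) = l p := by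
    have h1 := hd l₀ hr.ladd
    rw [← l_dl hl hE] at h1
    exact h1
  have hlin' : ∀ z : Fin m → ℤ, ∑ i, q i * z i = 0 → z = 0 := by
    intro z hz
    refine hlin z ?_
    rw [← hz]
    exact Finset.sum_congr rfl fun i _ => mul_comm _ _
  obtain ⟨g, hg⟩ : ∃ g : Fin m → Fin r → ℝ, g = fun i => rv (fun j => c' j i) := ⟨_, rfl⟩
  obtain ⟨hgV, hspan⟩ := frm (p := p) hlin hy
  have hgV' : ∀ i, g i ∈ Vp p := fun i => by rw [hg]; exact hgV i
  -- the classes of the products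
  have hciG : ∀ i, ci ν (G i) = fun j => c' j i := by
    intro i
    rw [hG]
    rw [Pool.Agent.H39.TZ.ci_prod]
    funext j
    rw [Finset.sum_apply]
    simp only [ci_zpow, hE]
    simp [Pi.single_apply]
  have hcR : ∀ n : Fin m → ℤ, Pool.Agent.H20.TP.cR ν (∏ i, G i ^ n i) = ∑ i, (n i : ℝ) • g i := by
    intro n
    funext j
    change ((ci ν (∏ i, G i ^ n i) j : ℤ) : ℝ) = _
    rw [Pool.Agent.H39.TZ.ci_prod, Finset.sum_apply, Finset.sum_apply, Int.cast_sum]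
    refine Finset.sum_congr rfl fun i _ => ?_
    rw [ci_zpow, hciG, hg]
    simp [rv]
  have hcV : ∀ n : Fin m → ℤ, Pool.Agent.H20.TP.cR ν (∏ i, G i ^ n i) ∈ Vp p := by
    intro n
    rw [hcR]
    exact Submodule.sum_mem _ fun i _ => Submodule.smul_mem _ _ (hgV' i)
  have hpg : p = ∑ i, q i • g i := by
    funext j
    rw [Finset.sum_apply, hy j]
    refine Finset.sum_congr rfl fun i _ => ?_
    rw [hg]
    simp [rv, mul_comm]
  -- the lower bound
  obtain ⟨N, hN⟩ : ∃ N : ℤ, N = 2 * m + 1 := ⟨_, rfl⟩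
  have hN0 : (0 : ℝ) < N := by
    rw [hN]
    push_cast
    positivity
  obtain ⟨C₀, x₀, hlow⟩ := Pool.Agent.H24.ZL.low_z' (p := q) (G := G) h hr hA hlin'
    (fun F B hB hF => pT_lim hr.tri hR fun W hW => (hF W hW).le)
    (Pool.Agent.H83.ZU.pTA_pos h hr hR hpz) (by rw [Pool.Agent.H83.ZU.bf_pz hr.tri]; exact hpz) (N + 1)
  obtain ⟨SL, hSL⟩ : ∃ SL : ℝ, SL = ∑ i, |l₀ (G i)| := ⟨_, rfl⟩
  have hSL0 : 0 ≤ SL := by
    rw [hSL]
    exact Finset.sum_nonneg fun i _ => abs_nonneg _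
  obtain ⟨x, hx⟩ : ∃ x : ℝ, x = max (max x₀ 1) (((N + 1) * SL + |c| + C₀ + 1) / l p) := ⟨_, rfl⟩
  have hx0 : x₀ ≤ x := by rw [hx]; exact (le_max_left _ _).trans (le_max_left _ _)
  have hx1 : 1 ≤ x := by rw [hx]; exact (le_max_right _ _).trans (le_max_left _ _)
  have hxl : (N + 1) * SL + |c| + C₀ + 1 ≤ x * l p := by
    have h1 : ((N + 1) * SL + |c| + C₀ + 1) / l p ≤ x := by rw [hx]; exact le_max_right _ _
    rwa [div_le_iff₀ hlp] at h1
  have heff : ∀ n : Fin m → ℤ, (∀ i, |(n i : ℝ) - x * q i| ≤ N + 1) → 0 < h0 (∏ i, G i ^ n i) 1 := by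
    intro n hnn
    have h1 := hlow n x hx0 hnn
    have h2 : l₀ (∏ i, G i ^ n i) = x * l p + ∑ i, ((n i : ℝ) - x * q i) * l₀ (G i) := by
      rw [Pool.Agent.H83.ZU.l_prod hr, ← hlq, Finset.mul_sum, ← Finset.sum_add_distrib]
      exact Finset.sum_congr rfl fun i _ => by ring
    have h4 := (abs_le.1 (Pool.Agent.H24.ZL.sum_bd _ (fun i => l₀ (G i)) hnn)).1
    have h5 : T (∏ i, G i ^ n i) (∏ i, G i ^ n i) (∏ i, G i ^ n i) = 0 := by
      rw [← hT]
      exact h3 _ (hcV n)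
    unfold Pool.Agent.H24.VP.chi at h1
    rw [h5, h2] at h1
    rw [← hSL] at h4
    have h6 := neg_abs_le c
    have h7 : (0 : ℝ) < h0 (∏ i, G i ^ n i) 1 := by linarith
    exact_mod_cast h7
  -- the classes
  obtain ⟨n₀, hn₀⟩ : ∃ n₀ : Fin m → ℤ, n₀ = fun i => ⌊x * q i⌋ := ⟨_, rfl⟩
  have hn₀b : ∀ i, |(n₀ i : ℝ) - x * q i| ≤ 1 := by
    intro i
    rw [hn₀, abs_le]
    have h1 := Int.floor_le (x * q i)
    have h2 := Int.lt_floor_add_one (x * q i)
    constructor <;> linarith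
  obtain ⟨e, he⟩ : ∃ e : Option (Fin m × Bool) → Fin m → ℤ, e = fun o => match o with
    | none => n₀
    | some (i, true) => n₀ + N • Pi.single i 1
    | some (i, false) => n₀ - N • Pi.single i 1 := ⟨_, rfl⟩
  have heb : ∀ o i, |(e o i : ℝ) - x * q i| ≤ N + 1 := by
    intro o i
    have h1 := abs_le.1 (hn₀b i)
    have h2 : ∀ i' : Fin m, ((Pi.single i' 1 : Fin m → ℤ) i : ℝ) = 0 ∨ ((Pi.single i' 1 : Fin m → ℤ) i : ℝ) = 1 := by
      intro i'
      by_cases h3 : i = i'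
      · subst h3
        right
        simp
      · left
        rw [Pi.single_eq_of_ne h3, Int.cast_zero]
    rw [abs_le]
    rcases o with _ | ⟨i', b⟩
    · rw [he]
      constructor <;> linarith
    · rcases b with _ | _
      · rw [he]
        have h4 : (((n₀ - N • Pi.single i' 1 : Fin m → ℤ) i : ℤ) : ℝ) =
            n₀ i - N * ((Pi.single i' 1 : Fin m → ℤ) i : ℝ) := by
          rw [Pi.sub_apply, Pi.smul_apply, smul_eq_mul]
          push_cast
          ring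
        change -(N + 1 : ℝ) ≤ (((n₀ - N • Pi.single i' 1 : Fin m → ℤ) i : ℤ) : ℝ) - x * q i ∧
          (((n₀ - N • Pi.single i' 1 : Fin m → ℤ) i : ℤ) : ℝ) - x * q i ≤ N + 1
        rw [h4]
        rcases h2 i' with h5 | h5 <;> rw [h5] <;> constructor <;> linarith
      · rw [he]
        have h4 : (((n₀ + N • Pi.single i' 1 : Fin m → ℤ) i : ℤ) : ℝ) =
            n₀ i + N * ((Pi.single i' 1 : Fin m → ℤ) i : ℝ) := by
          rw [Pi.add_apply, Pi.smul_apply, smul_eq_mul]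
          push_cast
          ring
        change -(N + 1 : ℝ) ≤ (((n₀ + N • Pi.single i' 1 : Fin m → ℤ) i : ℤ) : ℝ) - x * q i ∧
          (((n₀ + N • Pi.single i' 1 : Fin m → ℤ) i : ℤ) : ℝ) - x * q i ≤ N + 1
        rw [h4]
        rcases h2 i' with h5 | h5 <;> rw [h5] <;> constructor <;> linarith
  obtain ⟨W₀, hW₀⟩ : ∃ W₀ : Fin r → ℝ, W₀ = ∑ i, (n₀ i : ℝ) • g i := ⟨_, rfl⟩
  have hce : ∀ o, Pool.Agent.H20.TP.cR ν (∏ i, G i ^ e o i) = match o with
    | none => W₀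
    | some (i, true) => W₀ + (N : ℝ) • g i
    | some (i, false) => W₀ - (N : ℝ) • g i := by
    intro o
    rw [hcR]
    rcases o with _ | ⟨i', b⟩
    · rw [he, hW₀]
    · have h1 : ∑ i, (N : ℝ) • (((Pi.single i' 1 : Fin m → ℤ) i : ℤ) : ℝ) • g i = (N : ℝ) • g i' := by
        rw [Finset.sum_eq_single i']
        · simp
        · intro i _ hi
          rw [Pi.single_eq_of_ne hi]
          simp
        · intro hi
          exact absurd (Finset.mem_univ _) hi
      rcases b with _ | _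
      · rw [he]
        change ∑ i, (((n₀ - N • Pi.single i' 1 : Fin m → ℤ) i : ℤ) : ℝ) • g i = W₀ - (N : ℝ) • g i'
        rw [hW₀, ← h1, ← Finset.sum_sub_distrib]
        refine Finset.sum_congr rfl fun i _ => ?_
        rw [Pi.sub_apply, Pi.smul_apply, smul_eq_mul, smul_smul, ← sub_smul]
        push_cast
        rfl
      · rw [he]
        change ∑ i, (((n₀ + N • Pi.single i' 1 : Fin m → ℤ) i : ℤ) : ℝ) • g i = W₀ + (N : ℝ) • g i'
        rw [hW₀, ← h1, ← Finset.sum_add_distrib]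
        refine Finset.sum_congr rfl fun i _ => ?_
        rw [Pi.add_apply, Pi.smul_apply, smul_eq_mul, smul_smul, ← add_smul]
        push_cast
        rfl
  obtain ⟨M, hM0, hM⟩ := frm_bd (g := g) (V := Vp p) (fun w hw => by rw [hg]; exact hspan w hw)
  let f := (Fintype.equivFin (Option (Fin m × Bool))).symm
  refine ⟨Fintype.card (Option (Fin m × Bool)), fun j => ∏ i, G i ^ e (f j) i, 1 / (M * x), by positivity,
    fun j => hcV _, fun j => heff _ (heb _), fun y hy1 hy2 => ?_⟩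
  obtain ⟨s, hs1, hs2⟩ := hM (y - p) ((Vp p).sub_mem hy1 (self_vp p))
  obtain ⟨t, ht⟩ : ∃ t : Fin m → ℝ, t = fun i => x * q i - n₀ i + x * s i := ⟨_, rfl⟩
  have htb : ∀ i, |t i| ≤ 2 := by
    intro i
    have h1 := abs_le.1 (hn₀b i)
    have h2 : |x * s i| ≤ 1 := by
      rw [abs_mul, abs_of_pos (by linarith : (0 : ℝ) < x)]
      have h4 : |s i| ≤ M * (1 / (M * x)) := (hs2 i).trans (mul_le_mul_of_nonneg_left hy2.le hM0.le)
      have h5 : M * (1 / (M * x)) = 1 / x := by field_simp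
      rw [h5] at h4
      calc x * |s i| ≤ x * (1 / x) := mul_le_mul_of_nonneg_left h4 (by linarith)
        _ = 1 := by field_simp
    have h4 := abs_le.1 h2
    rw [ht, abs_le]
    constructor <;> linarith [h1.1, h1.2, h4.1, h4.2]
  have hts : ∑ i, |t i| ≤ N := by
    calc ∑ i, |t i| ≤ ∑ _i : Fin m, (2 : ℝ) := Finset.sum_le_sum fun i _ => htb i
      _ = 2 * m := by
        rw [Finset.sum_const, Finset.card_univ, Fintype.card_fin, nsmul_eq_mul]
        ring
      _ ≤ N := by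
        rw [hN]
        push_cast
        linarith
  have hxy : x • y = W₀ + ∑ i, t i • g i := by
    have h1 : y = p + ∑ i, s i • g i := by rw [← hs1]; abel
    rw [h1, hW₀]
    conv_lhs => rw [hpg]
    rw [← Finset.sum_add_distrib, ← Finset.sum_add_distrib, Finset.smul_sum]
    refine Finset.sum_congr rfl fun i _ => ?_
    rw [ht, ← add_smul, ← add_smul, smul_smul]
    congr 1
    ring
  rw [comb g W₀ t hN0] at hxy
  obtain ⟨a, ha⟩ : ∃ a : Option (Fin m × Bool) → ℝ, a = fun o => match o with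
    | none => (1 - (∑ i, |t i|) / N) / x
    | some (i, true) => max (t i) 0 / N / x
    | some (i, false) => max (- t i) 0 / N / x := ⟨_, rfl⟩
  have hx0' : 0 < x := by linarith
  have ha0 : ∀ o, 0 ≤ a o := by
    intro o
    rcases o with _ | ⟨i, b⟩
    · rw [ha]
      refine div_nonneg ?_ hx0'.le
      rw [sub_nonneg, div_le_one hN0]
      exact hts
    · rcases b with _ | _
      · rw [ha]
        exact div_nonneg (div_nonneg (le_max_right _ _) hN0.le) hx0'.le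
      · rw [ha]
        exact div_nonneg (div_nonneg (le_max_right _ _) hN0.le) hx0'.le
  refine ⟨fun j => a (f j), fun j => ha0 _, ?_⟩
  · have h1 : ∑ j, a (f j) • Pool.Agent.H20.TP.cR ν (∏ i, G i ^ e (f j) i) =
        ∑ o, a o • Pool.Agent.H20.TP.cR ν (∏ i, G i ^ e o i) := 
      Equiv.sum_comp f fun o => a o • Pool.Agent.H20.TP.cR ν (∏ i, G i ^ e o i)
    rw [h1, Fintype.sum_option, Fintype.sum_prod_type]
    have h2 : y = x⁻¹ • (x • y) := by rw [smul_smul, inv_mul_cancel₀ hx0'.ne', one_smul]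
    rw [h2, hxy, smul_add, Finset.smul_sum]
    congr 1
    · rw [hce, ha, smul_smul]
      congr 1
      field_simp
    · refine Finset.sum_congr rfl fun i _ => ?_
      rw [Fintype.sum_bool, hce, hce, ha, smul_add, smul_smul, smul_smul]
      congr 2 <;> field_simp

/-- the form for the assembly -/
theorem ww_cc [IsAlgClosed k] [CharZero k] [T0Space X.P] (h : Hyp X) (hr : RR T l₀ c) (hν : NumR ν)
    (hT : ∀ U V W, TR (Pool.Agent.H20.TP.cR ν U) (Pool.Agent.H20.TP.cR ν V) (Pool.Agent.H20.TP.cR ν W) = T U V W)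
    {l : (Fin r → ℝ) →ₗ[ℝ] ℝ} (hl : ∀ D, l (Pool.Agent.H20.TP.cR ν D) = l₀ D) {A : Cart X} (hA : Ample A)
    (hp : p ∈ closure (CC ν)) (hlp : 0 < l p) (hz : 0 < TR p p (Pool.Agent.H20.TP.cR ν A))
    (h3 : ∀ u ∈ Vp p, ∀ v ∈ Vp p, ∀ w ∈ Vp p, TR u v w = 0) :
    ∃ (m : ℕ) (W : Fin m → Cart X) (e : ℝ), 0 < e ∧ (∀ j, 0 < h0 (W j) 1 ∧ Pool.Agent.H20.TP.cR ν (W j) ∈ Vp p) ∧
      ∀ v ∈ Vp p, ‖v - p‖ < e → ∃ a : Fin m → ℝ, (∀ j, 0 ≤ a j) ∧ v = ∑ j, a j • Pool.Agent.H20.TP.cR ν (W j) := by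
  obtain ⟨m, W, e, he, h1, h2, h4⟩ := ww h hν hr hT hl hA (by rwa [cl_eq h.var hν]) hlp hz fun w hw => h3 w hw w hw w hw
  exact ⟨m, W, e, he, fun j => ⟨h2 j, h1 j⟩, h4⟩

end Pool.Agent.H41.RT
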